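import Pool.Agent.Helper82.RD.Defs

/-!
# Project RD (MP_86d903_lc), module GRL: linear algebra over the field with two elements
-/

set_option autoImplicit false

open Finset MP86d903

namespace Pool.Agent.Helper82.RD

variable {ι V : Type} [DecidableEq ι] [Fintype ι] [Fintype V] [DecidableEq V]
  {vs ng : ι → Finset V} {q : ℕ}

/-- the parity on `K` as a linear functional on `Λ` -/
private def mGRL_fun (Λ : Submodule (ZMod 2) (V → ZMod 2)) (K : Finset V) :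
    Λ →ₗ[ZMod 2] ZMod 2 :=
  (∑ i ∈ K, (LinearMap.proj i : (V → ZMod 2) →ₗ[ZMod 2] ZMod 2)) ∘ₗ Λ.subtype

omit [Fintype V] [DecidableEq V] in
private theorem mGRL_apply (Λ : Submodule (ZMod 2) (V → ZMod 2)) (K : Finset V) (b : Λ) :
    mGRL_fun Λ K b = ∑ i ∈ K, (b : V → ZMod 2) i := by
  simp [mGRL_fun]

private theorem mGRL_one (c : ZMod 2) (h : c ≠ 0) : c = 1 := by
  revert c
  decide

/-- GRL -/
theorem mGRL (Λ : Submodule (ZMod 2) (V → ZMod 2)) (K : Finset V) (E : Finset (Finset V))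
    (h : ∀ b ∈ Λ, (∀ e ∈ E, ∑ i ∈ e, b i = 0) → ∑ i ∈ K, b i = 0) :
    ∃ I ⊆ E, ∀ b ∈ Λ, ∑ i ∈ K, b i = ∑ e ∈ I, ∑ i ∈ e, b i := by
  classical
  have h1 : ⨅ e : E, LinearMap.ker (mGRL_fun Λ e.1) ≤ LinearMap.ker (mGRL_fun Λ K) := by
    intro b hb
    rw [LinearMap.mem_ker, mGRL_apply]
    apply h b b.2
    intro e he
    have h2 := (Submodule.mem_iInf _).1 hb ⟨e, he⟩
    rwa [LinearMap.mem_ker, mGRL_apply] at h2
  have h3 := mem_span_of_iInf_ker_le_ker h1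
  obtain ⟨c, hc⟩ := (Submodule.mem_span_range_iff_exists_fun (ZMod 2)).1 h3
  refine ⟨E.filter (fun e => ∃ he : e ∈ E, c ⟨e, he⟩ ≠ 0), Finset.filter_subset _ _, ?_⟩
  intro b hb
  have h4 := LinearMap.congr_fun hc ⟨b, hb⟩
  rw [LinearMap.sum_apply] at h4
  have h5 : ∑ i ∈ K, b i = mGRL_fun Λ K ⟨b, hb⟩ := (mGRL_apply Λ K ⟨b, hb⟩).symm
  rw [h5, ← h4, Finset.sum_filter, ← Finset.sum_coe_sort E]
  apply Finset.sum_congr rfl
  intro e _
  rw [LinearMap.smul_apply, mGRL_apply]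
  by_cases hce : c e = 0
  · rw [if_neg, hce, zero_smul]
    rintro ⟨he, hne⟩
    exact hne hce
  · rw [if_pos ⟨e.2, hce⟩, mGRL_one _ hce, one_smul]

end Pool.Agent.Helper82.RD
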